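import Mathlib

/-! Induced paths as lists, connected vertex sets, deep vertices, and the two path lemmas. -/

namespace Pool.Agent.H51.Td

open SimpleGraph

variable {V : Type*} {G : SimpleGraph V}

/-- A list of vertices tracing an induced path. -/
def IP (G : SimpleGraph V) : List V → Prop
  | [] => True
  | [_] => True
  | a :: b :: l => G.Adj a b ∧ (∀ c ∈ l, c ≠ a ∧ ¬ G.Adj a c) ∧ IP G (b :: l)

@[simp] lemma IP_nil : IP G ([] : List V) := trivial
@[simp] lemma IP_single (a : V) : IP G [a] := trivial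
lemma IP_cons_cons {a b : V} {l : List V} :
    IP G (a :: b :: l) ↔ G.Adj a b ∧ (∀ c ∈ l, c ≠ a ∧ ¬ G.Adj a c) ∧ IP G (b :: l) := Iff.rfl

lemma IP.tail {a : V} {l : List V} (h : IP G (a :: l)) : IP G l := by
  cases l with
  | nil => trivial
  | cons b l => exact h.2.2

lemma IP.take {l : List V} (h : IP G l) (n : ℕ) : IP G (l.take n) := by
  induction n generalizing l with
  | zero => simp
  | succ n ih =>
    match l, h with
    | [], _ => simp
    | [a], _ => simp
    | a :: b :: l, h =>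
      cases n with
      | zero => simp
      | succ n =>
        have h1 := ih h.2.2
        rw [List.take_succ_cons] at h1 ⊢
        rw [List.take_succ_cons]
        exact ⟨h.1, fun c hc => h.2.1 c (List.mem_of_mem_take hc), h1⟩

lemma IP.join {a : V} {l₁ l₂ : List V} (h₁ : IP G (a :: l₁)) (h₂ : IP G (a :: l₂))
    (h : ∀ x ∈ l₁, ∀ y ∈ l₂, x ≠ y ∧ ¬ G.Adj x y) : IP G (l₁.reverse ++ a :: l₂) := by
  induction l₁ generalizing a l₂ with
  | nil => simpa using h₂
  | cons b l ih =>
    rw [List.reverse_cons, List.append_assoc]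
    apply ih (a := b) (l₂ := a :: l₂) h₁.tail
    · refine ⟨h₁.1.symm, fun c hc => ?_, h₂⟩
      have := h b (by simp) c hc
      exact ⟨this.1.symm, this.2⟩
    · intro x hx y hy
      rw [List.mem_cons] at hy
      rcases hy with rfl | hy
      · have := h₁.2.1 x hx
        exact ⟨this.1, fun h => this.2 h.symm⟩
      · exact h x (by simp [hx]) y hy

/-- `y` starts an induced path whose other `j` vertices lie in `S`. -/
def Dep (G : SimpleGraph V) (y : V) (S : Set V) (j : ℕ) : Prop :=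
  ∃ l : List V, l.length = j ∧ (∀ x ∈ l, x ∈ S) ∧ IP G (y :: l)

lemma Dep.mono {y : V} {S S' : Set V} {j : ℕ} (h : Dep G y S j) (hS : S ⊆ S') : Dep G y S' j := by
  obtain ⟨l, h1, h2, h3⟩ := h
  exact ⟨l, h1, fun x hx => hS (h2 x hx), h3⟩

lemma Dep.le {y : V} {S : Set V} {j j' : ℕ} (h : Dep G y S j) (hj : j' ≤ j) : Dep G y S j' := by
  obtain ⟨l, h1, h2, h3⟩ := h
  refine ⟨l.take j', by simp [h1, hj], fun x hx => h2 x (List.mem_of_mem_take hx), ?_⟩
  have := h3.take (j' + 1)
  simpa using this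

lemma Dep.one {y c : V} {S : Set V} (hc : c ∈ S) (h : G.Adj y c) : Dep G y S 1 :=
  ⟨[c], rfl, by simpa using hc, ⟨h, by simp, trivial⟩⟩

/-- The sets `A`, `B` are disjoint and no edge joins them. -/
def NT (G : SimpleGraph V) (A B : Set V) : Prop := ∀ x ∈ A, ∀ y ∈ B, x ≠ y ∧ ¬ G.Adj x y

lemma NT.symm {A B : Set V} (h : NT G A B) : NT G B A := fun x hx y hy =>
  ⟨(h y hy x hx).1.symm, fun e => (h y hy x hx).2 e.symm⟩

lemma NT.mono {A B A' B' : Set V} (h : NT G A B) (hA : A' ⊆ A) (hB : B' ⊆ B) : NT G A' B' :=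
  fun x hx y hy => h x (hA hx) y (hB hy)

/-- `L` is nonempty and induces a connected subgraph. -/
def Conn (G : SimpleGraph V) (L : Set V) : Prop :=
  L.Nonempty ∧ ∀ A ⊆ L, A.Nonempty → A ≠ L → ∃ a ∈ A, ∃ b ∈ L, b ∉ A ∧ G.Adj a b

lemma Conn.single (a : V) : Conn G {a} := by
  refine ⟨⟨a, rfl⟩, fun A hA hne hA' => ?_⟩
  exfalso
  apply hA'
  exact (Set.Nonempty.subset_singleton_iff hne).1 hA

lemma Conn.insert {L : Set V} (h : Conn G L) {b c : V} (hc : c ∈ L) (hbc : G.Adj b c) :
    Conn G (insert b L) := by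
  refine ⟨⟨b, by simp⟩, fun A hA hne hA' => ?_⟩
  by_cases h1 : (A ∩ L).Nonempty
  · by_cases h2 : A ∩ L = L
    · have hLA : L ⊆ A := by rw [← h2]; exact Set.inter_subset_left
      have hb : b ∉ A := by
        intro hb
        apply hA'
        apply Set.Subset.antisymm hA
        intro x hx
        rcases hx with rfl | hx
        · exact hb
        · exact hLA hx
      exact ⟨c, hLA hc, b, by simp, hb, hbc.symm⟩
    · obtain ⟨a, ha, x, hx, hx2, hax⟩ := h.2 (A ∩ L) Set.inter_subset_right h1 h2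
      exact ⟨a, ha.1, x, by simp [hx], fun hxA => hx2 ⟨hxA, hx⟩, hax⟩
  · have hAb : A = {b} := by
      apply (Set.Nonempty.subset_singleton_iff hne).1
      intro x hx
      rcases hA hx with rfl | hx2
      · rfl
      · exact absurd ⟨x, hx, hx2⟩ h1
    have hbL : b ∉ L := fun hb => h1 ⟨b, by simp [hAb], hb⟩
    refine ⟨b, by simp [hAb], c, by simp [hc], ?_, hbc⟩
    rw [hAb]
    rintro rfl
    exact hbL hc

/-- Inside `S`, every connected set lies in a component. -/
lemma exists_comp [Finite V] {S K : Set V} (hK : Conn G K) (hKS : K ⊆ S) :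
    ∃ Z, K ⊆ Z ∧ Z ⊆ S ∧ Conn G Z ∧ ∀ b ∈ S, b ∉ Z → ∀ c ∈ Z, ¬ G.Adj b c := by
  induction hn : (S \ K).ncard using Nat.strong_induction_on generalizing K with
  | _ n ih =>
    by_cases h : ∀ b ∈ S, b ∉ K → ∀ c ∈ K, ¬ G.Adj b c
    · exact ⟨K, subset_rfl, hKS, hK, h⟩
    · push Not at h
      obtain ⟨b, hbS, hbK, c, hcK, hbc⟩ := h
      have h1 : insert b K ⊆ S := by
        intro x hx
        rcases hx with rfl | hx
        · exact hbS
        · exact hKS hx
      have h2 : (S \ insert b K).ncard < n := by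
        rw [← hn]
        apply Set.ncard_lt_ncard _ (Set.toFinite _)
        refine ⟨fun x hx => ⟨hx.1, fun hxK => hx.2 (by simp [hxK])⟩, fun h => ?_⟩
        have := h ⟨hbS, hbK⟩
        exact this.2 (by simp)
      obtain ⟨Z, hZ1, hZ2, hZ3, hZ4⟩ := ih _ h2 (hK.insert hcK hbc) h1 rfl
      exact ⟨Z, fun x hx => hZ1 (by simp [hx]), hZ2, hZ3, hZ4⟩

/-- From a vertex of bounded depth, one finds a vertex of smaller depth next to a connected
subset it does not see. -/
lemma claimB [Finite V] {ρ : ℕ} : ∀ {L L' : Set V} {y : V}, Conn G L → y ∉ L →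
    (∃ c ∈ L, G.Adj y c) → ¬ Dep G y L (ρ + 1) → Conn G L' → L' ⊆ L →
    (∀ c ∈ L', ¬ G.Adj y c) → ∃ b ∈ L, b ∉ L' ∧ (∃ c ∈ L', G.Adj b c) ∧ ¬ Dep G b L' ρ := by
  induction ρ with
  | zero =>
    intro L L' y hL _ ⟨c, hc, hyc⟩ hD
    exact absurd (Dep.one hc hyc) hD
  | succ ρ ih =>
    intro L L' y hL hyL ⟨c, hc, hyc⟩ hD hL' hLL hy
    obtain ⟨Z, hZ1, hZ2, hZ3, hZ4⟩ := exists_comp (S := L \ {x | G.Adj y x}) hL'
      (fun x hx => ⟨hLL hx, hy x hx⟩)
    have hZL : Z ≠ L := by
      rintro rfl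
      exact (hZ2 hc).2 hyc
    obtain ⟨z, hz, a, ha, haZ, hza⟩ := hL.2 Z (fun x hx => (hZ2 hx).1) hZ3.1 hZL
    have hya : G.Adj y a := by
      by_contra hya
      exact hZ4 a ⟨ha, hya⟩ haZ z hz hza.symm
    have hDa : ¬ Dep G a Z (ρ + 1) := by
      rintro ⟨l, h1, h2, h3⟩
      apply hD
      refine ⟨a :: l, by simp [h1], ?_, hya, ?_, h3⟩
      · intro x hx
        rw [List.mem_cons] at hx
        rcases hx with rfl | hx
        · exact ha
        · exact (hZ2 (h2 x hx)).1
      · intro x hx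
        refine ⟨?_, (hZ2 (h2 x hx)).2⟩
        rintro rfl
        exact hyL (hZ2 (h2 _ hx)).1
    by_cases haL : ∃ c ∈ L', G.Adj a c
    · exact ⟨a, ha, fun h => haZ (hZ1 h), haL, fun h => hDa (h.mono hZ1)⟩
    · push Not at haL
      obtain ⟨b, hb1, hb2, hb3, hb4⟩ := ih hZ3 haZ ⟨z, hz, hza.symm⟩ hDa hL' hZ1 haL
      exact ⟨b, (hZ2 hb1).1, hb2, hb3, fun h => hb4 (h.le (by omega))⟩

/-- The set of vertices of `L` outside `K` with a neighbour in `K`. -/
def Nb (G : SimpleGraph V) (L K : Set V) : Set V := {b | b ∈ L ∧ b ∉ K ∧ ∃ c ∈ K, G.Adj b c}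

lemma Dep.join {a : V} {S S' : Set V} {p p' : ℕ} (h : Dep G a S p) (h' : Dep G a S' p')
    (hN : NT G S S') : ∃ l : List V, l.length = p + p' + 1 ∧ IP G l := by
  obtain ⟨l, h1, h2, h3⟩ := h
  obtain ⟨l', h1', h2', h3'⟩ := h'
  refine ⟨l.reverse ++ a :: l', by simp [h1, h1']; omega, h3.join h3' ?_⟩
  intro x hx y hy
  exact hN x (h2 x hx) y (h2' y hy)

/-- Two far connected sets, each with only deep vertices around, give a long induced path. -/
lemma claimC [Finite V] {L K K' : Set V} {p p' : ℕ} (hL : Conn G L) (hK : Conn G K)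
    (hK' : Conn G K') (hKL : K ⊆ L) (hKL' : K' ⊆ L) (hN : NT G K K')
    (hp : ∀ b ∈ Nb G L K, Dep G b K p) (hp' : ∀ b ∈ Nb G L K', Dep G b K' p') :
    (∃ l : List V, l.length = p + p' + 2 ∧ IP G l) ∨
      (∃ l : List V, l.length = p + p' + 1 ∧ IP G l) ∧ (Nb G L K ∩ Nb G L K').Nonempty := by
  obtain ⟨Z, hZ1, hZ2, hZ3, hZ4⟩ := exists_comp (S := L \ (K' ∪ Nb G L K')) hK
    (fun x hx => ⟨hKL hx, by
      rintro (h | h)
      · exact (hN x hx x h).1 rfl
      · obtain ⟨_, _, c, hc, hxc⟩ := h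
        exact (hN x hx c hc).2 hxc⟩)
  have hZL : Z ≠ L := by
    rintro rfl
    obtain ⟨c, hc⟩ := hK'.1
    exact (hZ2 (hKL' hc)).2 (Or.inl hc)
  obtain ⟨z, hz, a, ha, haZ, hza⟩ := hL.2 Z (fun x hx => (hZ2 hx).1) hZ3.1 hZL
  have haN : a ∈ K' ∪ Nb G L K' := by
    by_contra h
    exact hZ4 a ⟨ha, h⟩ haZ z hz hza.symm
  have haN' : a ∈ Nb G L K' := by
    rcases haN with h | h
    · exfalso
      have := hZ2 hz
      apply this.2
      right
      exact ⟨this.1, fun h => this.2 (Or.inl h), a, h, hza⟩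
    · exact h
  have hZK' : NT G Z K' := by
    intro x hx c hc
    constructor
    · rintro rfl
      exact (hZ2 hx).2 (Or.inl hc)
    · intro hxc
      apply (hZ2 hx).2
      right
      exact ⟨(hZ2 hx).1, fun h => (hZ2 hx).2 (Or.inl h), c, hc, hxc⟩
  by_cases haK : ∃ c ∈ K, G.Adj a c
  · right
    have haNK : a ∈ Nb G L K := ⟨ha, fun h => haZ (hZ1 h), haK⟩
    exact ⟨(hp a haNK).join (hp' a haN') hN, a, haNK, haN'⟩
  · left
    push Not at haK
    have : Dep G a Z (p + 1) := by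
      by_contra hD
      obtain ⟨b, hb1, hb2, hb3, hb4⟩ := claimB hZ3 haZ ⟨z, hz, hza.symm⟩ hD hK hZ1 haK
      exact hb4 (hp b ⟨(hZ2 hb1).1, hb2, hb3⟩)
    obtain ⟨l, hl1, hl2⟩ := this.join (hp' a haN') hZK'
    exact ⟨l, by omega, hl2⟩

/-- `S` has elimination height at most `m`. -/
inductive TD (G : SimpleGraph V) : Set V → ℕ → Prop
  | empty (m : ℕ) : TD G ∅ m
  | del {S : Set V} {v : V} {m : ℕ} : v ∈ S → TD G (S \ {v}) m → TD G S (m + 1)
  | union {S S' : Set V} {m : ℕ} : NT G S S' → TD G S m → TD G S' m → TD G (S ∪ S') m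

lemma TD.succ {S : Set V} {m : ℕ} (h : TD G S m) : TD G S (m + 1) := by
  induction h with
  | empty m => exact .empty _
  | del hv _ ih => exact .del hv ih
  | union hN _ _ ih1 ih2 => exact .union hN ih1 ih2

lemma TD.le {S : Set V} {m m' : ℕ} (h : TD G S m) (hm : m ≤ m') : TD G S m' := by
  induction hm with
  | refl => exact h
  | step _ ih => exact ih.succ

lemma TD.mono {S S' : Set V} {m : ℕ} (h : TD G S m) (hS : S' ⊆ S) : TD G S' m := by
  induction h generalizing S' with
  | empty m =>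
    rw [Set.subset_empty_iff.1 hS]
    exact .empty _
  | @del S v m hv _ ih =>
    by_cases h : v ∈ S'
    · exact .del h (ih (fun x hx => ⟨hS hx.1, hx.2⟩))
    · exact (ih (fun x hx => ⟨hS hx, fun e => h (e ▸ hx)⟩)).succ
  | @union S T m hN _ _ ih1 ih2 =>
    have : S' = (S' ∩ S) ∪ (S' ∩ T) := by
      rw [← Set.inter_union_distrib_left]
      exact (Set.inter_eq_left.2 hS).symm
    rw [this]
    exact .union (hN.mono Set.inter_subset_right Set.inter_subset_right)
      (ih1 Set.inter_subset_right) (ih2 Set.inter_subset_right)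

lemma TD.add {S : Set V} {m : ℕ} (R : Finset V) (h : TD G (S \ ↑R) m) : TD G S (m + R.card) := by
  classical
  induction R using Finset.induction_on generalizing m with
  | empty => simpa using h
  | insert a R ha ih =>
    rw [Finset.card_insert_of_notMem ha]
    have e : S \ ↑(insert a R) = (S \ ↑R) \ {a} := by
      ext x; simp [not_or]; tauto
    rw [e] at h
    have : TD G (S \ ↑R) (m + 1) := by
      by_cases haS : a ∈ S \ ↑R
      · exact .del haS h
      · rw [Set.sdiff_singleton_eq_self haS] at h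
        exact h.succ
    have := ih this
    rwa [add_right_comm, add_assoc] at this

lemma TD.comps [Finite V] {S : Set V} {m : ℕ}
    (h : ∀ C ⊆ S, Conn G C → (∀ b ∈ S, b ∉ C → ∀ c ∈ C, ¬ G.Adj b c) → TD G C m) :
    TD G S m := by
  induction hn : S.ncard using Nat.strong_induction_on generalizing S with
  | _ n ih =>
    rcases S.eq_empty_or_nonempty with rfl | ⟨x, hx⟩
    · exact .empty _
    · obtain ⟨C, hC1, hC2, hC3, hC4⟩ := exists_comp (G := G) (S := S) (Conn.single x)
        (by simpa using hx)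
      have hxC : x ∈ C := hC1 rfl
      have e : S = C ∪ (S \ C) := (Set.union_sdiff_cancel hC2).symm
      have hlt : (S \ C).ncard < n := by
        rw [← hn]
        apply Set.ncard_lt_ncard _ (Set.toFinite _)
        exact ⟨Set.sdiff_subset, fun h => (h hx).2 hxC⟩
      have h2 : TD G (S \ C) m := by
        apply ih _ hlt _ rfl
        intro C' hC' hcon hcomp
        apply h C' (fun x hx => (hC' hx).1) hcon
        intro b hb hbC' c hc
        by_cases hbC : b ∈ C
        · intro e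
          exact hC4 c (hC' hc).1 (hC' hc).2 b hbC e.symm
        · exact hcomp b ⟨hb, hbC⟩ hbC' c hc
      rw [e]
      refine .union ?_ (h C hC2 hC3 hC4) h2
      intro c hc b hb
      exact ⟨fun e => hb.2 (e ▸ hc), fun e => hC4 b hb.1 hb.2 c hc e.symm⟩

end Pool.Agent.H51.Td
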