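import Mathlib

/-! Treewidth, treedepth, induced-path-freeness and the extremal function `h`. -/

namespace Pool.Agent.H51.Td

open SimpleGraph

/-- No induced subgraph of `G` is isomorphic to the path on `t` vertices. -/
def PathFree {V : Type} (t : ℕ) (G : SimpleGraph V) : Prop :=
  ¬ Nonempty (SimpleGraph.pathGraph t ↪g G)

/-- `G` has a tree decomposition (finite tree `T`, bags `B`) all of whose bags have at most
`k + 1` vertices. -/
def TreewidthLE {V : Type} (k : ℕ) (G : SimpleGraph V) : Prop :=
  ∃ (ι : Type) (_ : Finite ι) (T : SimpleGraph ι) (B : ι → Finset V),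
    T.IsTree ∧
    (∀ u v : V, G.Adj u v → ∃ i, u ∈ B i ∧ v ∈ B i) ∧
    (∀ v : V, (T.induce {i | v ∈ B i}).Connected) ∧
    ∀ i, (B i).card ≤ k + 1

/-- `G` has a rooted forest on its vertex set (written as a partial order in which the
ancestors-or-self of every vertex form a chain) in which every vertex has at most `m`
ancestors-or-self and the ends of every edge are comparable. -/
def TreedepthLE {V : Type} (m : ℕ) (G : SimpleGraph V) : Prop :=
  ∃ _ : PartialOrder V,
    (∀ w : V, IsChain (· ≤ ·) (Set.Iic w)) ∧
    (∀ w : V, (Set.Iic w).ncard ≤ m) ∧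
    ∀ u v : V, G.Adj u v → u ≤ v ∨ v ≤ u

/-- The treedepth of `G`. -/
noncomputable def treedepth {V : Type} (G : SimpleGraph V) : ℕ := sInf {m | TreedepthLE m G}

/-- The treedepths of the finite graphs with treewidth at most `k` and no induced path on
`t` vertices. -/
def tdSet (k t : ℕ) : Set ℕ :=
  {d | ∃ (V : Type) (_ : Finite V) (G : SimpleGraph V),
    TreewidthLE k G ∧ PathFree t G ∧ treedepth G = d}

/-- The largest treedepth of a finite graph with treewidth at most `k` and no induced path on
`t` vertices. -/
noncomputable def h (k t : ℕ) : ℕ := sSup (tdSet k t)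

end Pool.Agent.H51.Td
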