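import Pool.Agent.H51.Td.Basic
import Pool.Agent.H51.Td.Defs

/-! A common bag for families of connected sets that pairwise touch or share many neighbours. -/

namespace Pool.Agent.H51.Td

open SimpleGraph

/-- In a tree, a map sending each node to a neighbour flips some edge. -/
lemma exists_flip {ι : Type} [Finite ι] {T : SimpleGraph ι} (hT : T.IsTree) (f : ι → ι)
    (hf : ∀ i, T.Adj i (f i)) : ∃ i, f (f i) = i := by
  classical
  have := Fintype.ofFinite ι
  have hcard := hT.card_edgeFinset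
  have hlt : T.edgeFinset.card < (Finset.univ : Finset ι).card := by
    rw [Finset.card_univ]; omega
  obtain ⟨i, _, j, _, hij, he⟩ := Finset.exists_ne_map_eq_of_card_lt_of_maps_to hlt
    (f := fun i => s(i, f i)) (by
      intro i _
      simpa using hf i)
  simp only [Sym2.eq_iff] at he
  rcases he with ⟨h, _⟩ | ⟨h1, h2⟩
  · exact absurd h hij
  · refine ⟨j, ?_⟩
    rw [← h1, h2]

variable {V : Type} {G : SimpleGraph V} {ι : Type} {T : SimpleGraph ι} {B : ι → Finset V}

/-- A connected set avoiding the bag at `i` occupies one side of the tree minus `i`. -/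
lemma reach_of_conn (hE : ∀ u v : V, G.Adj u v → ∃ i, u ∈ B i ∧ v ∈ B i)
    (hC : ∀ v : V, (T.induce {i | v ∈ B i}).Connected) {A : Set V} (hA : Conn G A) (i : ι)
    (hi : ∀ v ∈ A, v ∉ B i) {T' : SimpleGraph ι} (hT' : ∀ x y, x ≠ i → y ≠ i → T.Adj x y → T'.Adj x y)
    {x y : ι} {u v : V} (hu : u ∈ A) (hv : v ∈ A) (hx : u ∈ B x) (hy : v ∈ B y) :
    T'.Reachable x y := by
  have key : ∀ w ∈ A, ∀ x y, w ∈ B x → w ∈ B y → T'.Reachable x y := by
    intro w hw x y hx hy
    have h1 := (hC w).preconnected ⟨x, hx⟩ ⟨y, hy⟩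
    have h2 : (T.induce {i | w ∈ B i}) ≤ (T'.comap (fun z : {i | w ∈ B i} => z.1)) := by
      intro a b hab
      apply hT'
      · rintro e
        exact hi w hw (e ▸ a.2)
      · rintro e
        exact hi w hw (e ▸ b.2)
      · exact hab
    have h3 := h1.mono h2
    exact h3.map (Hom.comap (fun z : {i | w ∈ B i} => z.1) T')
  let A' : Set V := {w | w ∈ A ∧ ∀ z, w ∈ B z → T'.Reachable x z}
  have hA' : A' = A := by
    by_contra hne
    obtain ⟨a, ha, b, hb, hbA, hab⟩ := hA.2 A' (fun w hw => hw.1) ⟨u, hu, fun z hz => key u hu x z hx hz⟩ hne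
    apply hbA
    refine ⟨hb, fun z hz => ?_⟩
    obtain ⟨j, hj1, hj2⟩ := hE a b hab
    exact (ha.2 j hj1).trans (key b hb j z hj2 hz)
  have : v ∈ A' := by rw [hA']; exact hv
  exact this.2 y hy

/-- If no common bag is met then each node points to the side of a missed set. -/
lemma exists_dir (hT : T.IsTree) (hE : ∀ u v : V, G.Adj u v → ∃ i, u ∈ B i ∧ v ∈ B i)
    (hC : ∀ v : V, (T.induce {i | v ∈ B i}).Connected) {A : Set V} (hA : Conn G A) (i : ι)
    (hi : ∀ v ∈ A, v ∉ B i) : ∃ j, T.Adj i j ∧ ∀ v ∈ A, ∀ x, v ∈ B x →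
      (T.deleteEdges {s(i, j)}).Reachable j x := by
  obtain ⟨u, hu⟩ := hA.1
  obtain ⟨⟨x₀, hx₀⟩⟩ := (hC u).nonempty
  have hne : i ≠ x₀ := by
    rintro rfl
    exact hi u hu hx₀
  obtain ⟨p, hp, -⟩ := hT.existsUnique_path i x₀
  cases p with
  | nil => exact absurd rfl hne
  | @cons _ j _ hij q =>
    rw [Walk.cons_isPath_iff] at hp
    refine ⟨j, hij, fun v hv x hx => ?_⟩
    have h1 : (T.deleteEdges {s(i, j)}).Reachable j x₀ := by
      refine ⟨q.toDeleteEdges _ ?_⟩
      intro e he h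
      rw [Set.mem_singleton_iff] at h
      subst h
      exact hp.2 (Walk.fst_mem_support_of_mem_edges q he)
    have h2 : (T.deleteEdges {s(i, j)}).Reachable x₀ x := by
      apply reach_of_conn hE hC hA i hi _ hu hv hx₀ hx
      intro a b ha hb hab
      rw [deleteEdges_adj]
      refine ⟨hab, ?_⟩
      intro h
      rw [Set.mem_singleton_iff, Sym2.eq_iff] at h
      rcases h with ⟨h, _⟩ | ⟨_, h⟩
      · exact ha h
      · exact hb h
    exact h1.trans h2

/-- Connected sets which pairwise touch, or have at least `k + 2` common neighbours, are all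
met by one bag of size at most `k + 1`. -/
theorem common_bag [Finite ι] {k : ℕ} (hT : T.IsTree)
    (hE : ∀ u v : V, G.Adj u v → ∃ i, u ∈ B i ∧ v ∈ B i)
    (hC : ∀ v : V, (T.induce {i | v ∈ B i}).Connected) (hB : ∀ i, (B i).card ≤ k + 1)
    (F : Set (Set V)) (hF : ∀ A ∈ F, Conn G A)
    (hFF : ∀ A ∈ F, ∀ A' ∈ F, NT G A A' → ∃ Y : Finset V, k + 2 ≤ Y.card ∧
      ∀ y ∈ Y, (∃ a ∈ A, G.Adj y a) ∧ (∃ a ∈ A', G.Adj y a)) :
    ∃ i, ∀ A ∈ F, ∃ v ∈ A, v ∈ B i := by
  by_contra hcon
  push Not at hcon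
  choose A hAF hAi using hcon
  have := fun i => exists_dir hT hE hC (hF _ (hAF i)) i (hAi i)
  choose f hf hfr using this
  obtain ⟨i, hi⟩ := exists_flip hT f hf
  set j := f i with hj
  have hbr : ¬ (T.deleteEdges {s(i, j)}).Reachable i j := by
    have := isAcyclic_iff_forall_adj_isBridge.1 hT.isAcyclic (hf i)
    exact this
  have hri := hfr i
  have hrj := hfr j
  rw [hi, Sym2.eq_swap] at hrj
  rw [← hj] at hri
  have hNT : NT G (A i) (A j) := by
    intro x hx y hy
    constructor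
    · rintro rfl
      obtain ⟨⟨z, hz⟩⟩ := (hC x).nonempty
      exact hbr ((hrj x hy z hz).trans (hri x hx z hz).symm)
    · intro hxy
      obtain ⟨z, hz1, hz2⟩ := hE x y hxy
      exact hbr ((hrj y hy z hz2).trans (hri x hx z hz1).symm)
  obtain ⟨Y, hYc, hY⟩ := hFF _ (hAF i) _ (hAF j) hNT
  have hYB : Y ⊆ B i := by
    intro y hy
    by_contra hyi
    obtain ⟨⟨a, ha, hya⟩, b, hb, hyb⟩ := hY y hy
    obtain ⟨x, hx1, hx2⟩ := hE y a hya
    obtain ⟨z, hz1, hz2⟩ := hE y b hyb
    have h1 : (T.deleteEdges {s(i, j)}).Reachable x z := by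
      apply reach_of_conn hE hC (Conn.single y) i (by simpa using hyi) _ rfl rfl hx1 hz1
      intro a b ha hb hab
      rw [deleteEdges_adj]
      refine ⟨hab, ?_⟩
      intro h
      rw [Set.mem_singleton_iff, Sym2.eq_iff] at h
      rcases h with ⟨h, _⟩ | ⟨_, h⟩
      · exact ha h
      · exact hb h
    exact hbr ((hrj b hb z hz2).trans (h1.symm.trans (hri a ha x hx2).symm))
  have := Finset.card_le_card hYB
  have := hB i
  omega

end Pool.Agent.H51.Td
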