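import Pool.Agent.H51.Td.Lower

/-! Assembly of the bounds. -/

namespace Pool.Agent.H51.Td

open SimpleGraph Filter Asymptotics

lemma RT.treewidthLE {V : Type} {k : ℕ} {G : SimpleGraph V} (h : RT k G) : TreewidthLE k G := by
  classical
  obtain ⟨ι, hfin, r, p, rk, B, top, h1, h2, h3, h4, h5⟩ := h
  let T : SimpleGraph ι := SimpleGraph.fromRel (fun i j => i ≠ r ∧ j = p i)
  have hne : ∀ i, i ≠ r → i ≠ p i := by
    intro i hi e
    have := h1 i hi
    rw [← e] at this
    omega
  have hadj : ∀ i, i ≠ r → T.Adj i (p i) := by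
    intro i hi
    rw [SimpleGraph.fromRel_adj]
    exact ⟨hne i hi, Or.inl ⟨hi, rfl⟩⟩
  refine ⟨ι, hfin, T, B, ?_, h4, ?_, h5⟩
  · have hcon : T.Connected := by
      have hreach : ∀ n i, rk i ≤ n → T.Reachable i r := by
        intro n
        induction n with
        | zero =>
          intro i hi
          by_cases hir : i = r
          · subst hir; rfl
          · have := h1 i hir
            omega
        | succ n ih =>
          intro i hi
          by_cases hir : i = r
          · subst hir; rfl
          · have := h1 i hir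
            exact (hadj i hir).reachable.trans (ih (p i) (by omega))
      have : Nonempty ι := ⟨r⟩
      refine ⟨fun i j => (hreach _ i le_rfl).trans (hreach _ j le_rfl).symm⟩
    rw [isTree_iff_connected_and_card]
    refine ⟨hcon, ?_⟩
    have hle := hcon.card_vert_le_card_edgeSet_add_one
    have hsub : T.edgeSet ⊆ (fun i => s(i, p i)) '' {i | i ≠ r} := by
      intro e he
      induction e with
      | h a b =>
        rw [mem_edgeSet, SimpleGraph.fromRel_adj] at he
        rcases he.2 with ⟨h, h'⟩ | ⟨h, h'⟩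
        · exact ⟨a, h, by rw [h']⟩
        · exact ⟨b, h, by rw [h', Sym2.eq_swap]⟩
    have h6 : Nat.card T.edgeSet + 1 ≤ Nat.card ι := by
      have h7 : T.edgeSet.ncard ≤ ({i | i ≠ r} : Set ι).ncard :=
        (Set.ncard_le_ncard hsub (Set.toFinite _)).trans (Set.ncard_image_le (Set.toFinite _))
      have h8 : ({i | i ≠ r} : Set ι).ncard + 1 = Nat.card ι := by
        have := Set.ncard_add_ncard_compl ({i | i ≠ r} : Set ι)
        have e : ({i | i ≠ r} : Set ι)ᶜ = {r} := by ext; simp
        rwa [e, Set.ncard_singleton] at this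
      have h9 : Nat.card T.edgeSet = T.edgeSet.ncard := rfl
      omega
    omega
  · intro v
    have : Nonempty {i | v ∈ B i} := ⟨⟨top v, h2 v⟩⟩
    have hreach : ∀ n i, (hi : v ∈ B i) → rk i ≤ n →
        (T.induce {i | v ∈ B i}).Reachable ⟨i, hi⟩ ⟨top v, h2 v⟩ := by
      intro n
      induction n with
      | zero =>
        intro i hi hn
        by_cases hit : i = top v
        · subst hit; rfl
        · have := h1 i (h3 v i hi hit).1
          omega
      | succ n ih =>
        intro i hi hn
        by_cases hit : i = top v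
        · subst hit; rfl
        · have h6 := h3 v i hi hit
          have h7 := h1 i h6.1
          have h8 : (T.induce {i | v ∈ B i}).Adj ⟨i, hi⟩ ⟨p i, h6.2⟩ := hadj i h6.1
          exact h8.reachable.trans (ih (p i) h6.2 (by omega))
    refine ⟨fun i j => (hreach _ i.1 i.2 le_rfl).trans (hreach _ j.1 j.2 le_rfl).symm⟩

/-- The lower bound data: a finite graph of treewidth at most `k` without induced paths on `t`
vertices and with treedepth at least `j`. -/
def Good (k t j : ℕ) : Prop :=
  ∃ (V : Type) (_ : Finite V) (G : SimpleGraph V), RT k G ∧ NoIP G t ∧ Low G Set.univ j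

lemma low_top {V : Type} [Finite V] : ∀ n, ∀ S : Set V, S.ncard = n →
    Low (⊤ : SimpleGraph V) S n := by
  intro n
  induction n with
  | zero => intro S _; exact .zero _
  | succ n ih =>
    intro S hS
    have hne : S.Nonempty := by
      rw [← Set.ncard_pos (Set.toFinite _)]
      omega
    refine .succ subset_rfl ⟨hne, ?_⟩ ?_
    · intro A hA hAne hAS
      obtain ⟨a, ha⟩ := hAne
      obtain ⟨b, hb, hbA⟩ := Set.exists_of_ssubset (hA.ssubset_of_ne hAS)
      exact ⟨a, ha, b, hb, hbA, by
        rw [top_adj]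
        rintro rfl
        exact hbA ha⟩
    · intro v hv
      apply ih
      rw [Set.ncard_sdiff_singleton_of_mem hv, hS]
      rfl

lemma RT_small {V : Type} [Finite V] {k : ℕ} (G : SimpleGraph V) (h : Nat.card V ≤ k + 1) :
    RT k G := by
  classical
  have := Fintype.ofFinite V
  refine ⟨Unit, inferInstance, (), id, fun _ => 0, fun _ => Finset.univ, fun _ => (), ?_, ?_, ?_,
    ?_, ?_⟩
  · intro i hi; exact absurd rfl hi
  · simp
  · intro v i _ h; exact absurd rfl h
  · intro u v _; exact ⟨(), by simp, by simp⟩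
  · intro _
    rw [Finset.card_univ, ← Nat.card_eq_fintype_card]
    exact h

lemma good_three (k : ℕ) : Good k 3 (k + 1) := by
  refine ⟨Fin (k + 1), inferInstance, ⊤, RT_small _ (by simp), ?_, low_top _ _ (by simp)⟩
  intro l hl
  match l, hl with
  | [], _ => simp
  | [_], _ => simp
  | [_, _], _ => simp
  | a :: b :: c :: l, hl =>
    exfalso
    have := hl.2.1 c (by simp)
    exact this.2 (by rw [top_adj]; exact this.1.symm)

lemma good_two (k : ℕ) : Good k 2 1 := by
  refine ⟨Unit, inferInstance, ⊤, RT_small _ (by simp), ?_, low_top _ _ (by simp)⟩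
  intro l hl
  match l, hl with
  | [], _ => simp
  | [_], _ => simp
  | a :: b :: l, hl =>
    exact absurd hl.1 (by simp)

lemma NoIP.mono {V : Type*} {G : SimpleGraph V} {t t' : ℕ} (h : NoIP G t) (ht : t ≤ t') :
    NoIP G t' := fun l hl => (h l hl).trans_le ht

lemma Good.mono {k t t' j : ℕ} (h : Good k t j) (ht : t ≤ t') : Good k t' j := by
  obtain ⟨V, hV, G, h1, h2, h3⟩ := h
  exact ⟨V, hV, G, h1, h2.mono ht, h3⟩

lemma good_step {k s i j : ℕ} (hi : 1 ≤ i) (hD : Good (k + 1) s i) (hH : Good k (s + 2) j) :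
    Good (k + 1) (s + 2) (i + j) := by
  obtain ⟨α, _, D, hD1, hD2, hD3⟩ := hD
  obtain ⟨β, _, H, hH1, hH2, hH3⟩ := hH
  refine ⟨α ⊕ (α × Bool × β), inferInstance, blow D H, blow_RT hD1 hH1, blow_noIP hD2 hH2, ?_⟩
  exact (part_low hH3 hD3 hi).mono (Set.subset_univ _)

lemma good_choose (m : ℕ) : ∀ k, Good k (2 * m + 3) ((k + (m + 1)).choose (m + 1)) := by
  induction m with
  | zero =>
    intro k
    simpa using good_three k
  | succ m ih =>
    intro k
    induction k with
    | zero =>
      have e : (0 + (m + 1 + 1)).choose (m + 1 + 1) = 1 := by simp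
      rw [e]
      exact (good_two 0).mono (by omega)
    | succ k ihk =>
      have e : (k + 1 + (m + 1 + 1)).choose (m + 1 + 1) =
          (k + 1 + (m + 1)).choose (m + 1) + (k + (m + 1 + 1)).choose (m + 1 + 1) := by
        have e1 : k + 1 + (m + 1 + 1) = (k + 1 + (m + 1)) + 1 := by ring
        have e2 : k + (m + 1 + 1) = k + 1 + (m + 1) := by ring
        rw [e1, e2, Nat.choose_succ_succ]
      rw [e]
      refine good_step (s := 2 * m + 3) ?_ (ih (k + 1)) ihk
      exact Nat.choose_pos (by omega)

lemma good_all {t : ℕ} (ht : 2 ≤ t) (k : ℕ) :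
    Good k t ((k + (t - 1) / 2).choose ((t - 1) / 2)) := by
  rcases Nat.eq_zero_or_pos ((t - 1) / 2) with h0 | hpos
  · rw [h0]
    simpa using (good_two k).mono ht
  · obtain ⟨m, hm⟩ : ∃ m, (t - 1) / 2 = m + 1 := ⟨(t - 1) / 2 - 1, by omega⟩
    rw [hm]
    exact (good_choose m k).mono (by omega)

lemma NoIP.pathFree {V : Type} {G : SimpleGraph V} {t : ℕ} (h : NoIP G t) : PathFree t G := by
  rintro ⟨f⟩
  have hIP : IP G (List.ofFn f) := by
    have key : ∀ (n : ℕ) (g : Fin n → V), (∀ i j : Fin n, i.1 < j.1 → g i ≠ g j ∧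
        (G.Adj (g i) (g j) ↔ i.1 + 1 = j.1)) → IP G (List.ofFn g) := by
      intro n
      induction n with
      | zero => intro g _; simp
      | succ n ih =>
        intro g hg
        have hrec := ih (fun i => g i.succ) (by
          intro i j hij
          have := hg i.succ j.succ (by simpa using hij)
          simpa using this)
        rw [List.ofFn_succ]
        cases n with
        | zero => simp
        | succ n =>
          rw [List.ofFn_succ] at hrec ⊢
          refine ⟨?_, ?_, hrec⟩
          · exact (hg 0 (Fin.succ 0) (by simp)).2.2 (by simp)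
          · intro c hc
            rw [List.mem_ofFn] at hc
            obtain ⟨i, rfl⟩ := hc
            have := hg 0 i.succ.succ (by simp)
            refine ⟨this.1.symm, fun h => ?_⟩
            have := this.2.1 h
            simp at this
    apply key
    intro i j hij
    refine ⟨fun h => ?_, ?_⟩
    · have := f.injective h
      subst this
      omega
    · have := f.map_rel_iff (a := i) (b := j)
      rw [pathGraph_adj] at this
      constructor
      · intro h
        rcases this.1 h with h | h
        · exact h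
        · omega
      · intro h
        exact this.2 (Or.inl h)
  have := h _ hIP
  simp at this

/-- Every element of `tdSet k t` satisfies the upper bound. -/
lemma tdSet_le {k t d : ℕ} (ht : 2 ≤ t) (h : d ∈ tdSet k t) : d ≤ 3 * (k + 2) ^ ((t - 1) / 2) := by
  obtain ⟨V, _, G, h1, h2, rfl⟩ := h
  exact treedepth_le_of ht h1 h2

lemma tdSet_bdd {k t : ℕ} (ht : 2 ≤ t) : BddAbove (tdSet k t) := ⟨_, fun _ h => tdSet_le ht h⟩

lemma exists_tdSet {k t : ℕ} (ht : 2 ≤ t) :
    ∃ d ∈ tdSet k t, (k + (t - 1) / 2).choose ((t - 1) / 2) ≤ d := by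
  obtain ⟨V, _, G, h1, h2, h3⟩ := good_all ht k
  refine ⟨treedepth G, ⟨V, inferInstance, G, h1.treewidthLE, h2.pathFree, rfl⟩, ?_⟩
  have hmem : TreedepthLE (treedepth G) G :=
    Nat.sInf_mem (s := {m | TreedepthLE m G})
      ⟨_, treedepthLE_of ht h1.treewidthLE h2.pathFree⟩
  exact h3.le_of_treedepthLE hmem

theorem h_isGreatest {t : ℕ} (ht : 2 ≤ t) (k : ℕ) : IsGreatest (tdSet k t) (h k t) := by
  obtain ⟨d, hd, _⟩ := exists_tdSet (k := k) ht
  exact ⟨Nat.sSup_mem ⟨d, hd⟩ (tdSet_bdd ht), fun x hx => le_csSup (tdSet_bdd ht) hx⟩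

theorem h_lower {t : ℕ} (ht : 2 ≤ t) (k : ℕ) : (k + (t - 1) / 2).choose ((t - 1) / 2) ≤ h k t := by
  obtain ⟨d, hd, hle⟩ := exists_tdSet (k := k) ht
  exact hle.trans ((h_isGreatest ht k).2 hd)

theorem h_upper {t : ℕ} (ht : 2 ≤ t) (k : ℕ) : h k t ≤ 3 * (k + 2) ^ ((t - 1) / 2) :=
  tdSet_le ht (h_isGreatest ht k).1

theorem h_isTheta {t : ℕ} (ht : 2 ≤ t) :
    (fun k : ℕ => (h k t : ℝ)) =Θ[atTop] (fun k : ℕ => (k : ℝ) ^ ((t - 1) / 2)) := by
  set m := (t - 1) / 2 with hm
  constructor
  · refine IsBigO.of_bound (3 * 3 ^ m) ?_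
    filter_upwards [eventually_ge_atTop 1] with k hk
    have h1 := h_upper ht k
    rw [← hm] at h1
    have h2 : (h k t : ℝ) ≤ 3 * ((k : ℝ) + 2) ^ m := by exact_mod_cast h1
    have h3 : ((k : ℝ) + 2) ^ m ≤ (3 * (k : ℝ)) ^ m := by
      apply pow_le_pow_left₀ (by positivity)
      have : (1 : ℝ) ≤ k := by exact_mod_cast hk
      linarith
    rw [mul_pow] at h3
    rw [Real.norm_of_nonneg (by positivity), Real.norm_of_nonneg (by positivity)]
    linarith
  · refine IsBigO.of_bound (m.factorial : ℝ) ?_
    filter_upwards with k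
    have h1 := h_lower ht k
    rw [← hm] at h1
    have h2 : k ^ m ≤ m.factorial * (k + m).choose m := by
      have := Nat.pow_succ_le_ascFactorial (k + 1) m
      rw [Nat.ascFactorial_eq_factorial_mul_choose] at this
      exact (Nat.pow_le_pow_left (Nat.le_succ k) m).trans this
    rw [Real.norm_of_nonneg (by positivity), Real.norm_of_nonneg (by positivity)]
    have h3 : k ^ m ≤ m.factorial * h k t := h2.trans (Nat.mul_le_mul_left _ h1)
    exact_mod_cast h3

end Pool.Agent.H51.Td
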