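import Pool.Agent.H51.Td.Upper
import Pool.Agent.H51.Td.Bramble

/-! Links between the list and set formulations and the standard definitions. -/

namespace Pool.Agent.H51.Td

open SimpleGraph

variable {V : Type} {G : SimpleGraph V}

lemma TreewidthLE.commonBag {k : ℕ} (h : TreewidthLE k G) : CommonBag G k := by
  obtain ⟨ι, _, T, B, hT, hE, hC, hB⟩ := h
  intro F hF hFF
  obtain ⟨i, hi⟩ := common_bag hT hE hC hB F hF hFF
  exact ⟨B i, hB i, hi⟩

lemma IP.get_aux {l : List V} (h : IP G l) : ∀ i j : ℕ, (hi : i < l.length) → (hj : j < l.length) →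
    i < j → l[i] ≠ l[j] ∧ (G.Adj l[i] l[j] ↔ i + 1 = j) := by
  induction l with
  | nil => intro i j hi; simp at hi
  | cons a l ih =>
    intro i j hi hj hij
    cases i with
    | succ i =>
      cases j with
      | zero => omega
      | succ j =>
        have := ih h.tail i j (by simpa using hi) (by simpa using hj) (by omega)
        simpa using this
    | zero =>
      cases l with
      | nil => simp at hj; omega
      | cons b l =>
        match j, hij with
        | 1, _ => simp [h.1, h.1.ne]
        | j + 2, _ =>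
          have hmem : l[j]'(by simp at hj; omega) ∈ l := List.getElem_mem _
          have := h.2.1 _ hmem
          simp only [List.getElem_cons_zero, List.getElem_cons_succ]
          refine ⟨this.1.symm, ⟨fun h => absurd h this.2, fun h => by omega⟩⟩

lemma IP.embedding {l : List V} (h : IP G l) : Nonempty (pathGraph l.length ↪g G) := by
  have hinj : Function.Injective (fun i : Fin l.length => l[i.1]) := by
    intro i j hij
    simp only at hij
    rcases lt_trichotomy i.1 j.1 with hlt | heq | hlt
    · exact absurd hij (h.get_aux i j i.2 j.2 hlt).1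
    · exact Fin.ext heq
    · exact absurd hij.symm (h.get_aux j i j.2 i.2 hlt).1
  refine ⟨⟨⟨fun i => l[i.1], hinj⟩, ?_⟩⟩
  intro i j
  change G.Adj l[i.1] l[j.1] ↔ (pathGraph l.length).Adj i j
  rw [pathGraph_adj]
  rcases lt_trichotomy i.1 j.1 with hlt | heq | hlt
  · rw [(h.get_aux i j i.2 j.2 hlt).2]
    omega
  · have : i = j := Fin.ext heq
    subst this
    simp
  · rw [G.adj_comm, (h.get_aux j i j.2 i.2 hlt).2]
    omega

lemma PathFree.noIP {t : ℕ} (h : PathFree t G) : NoIP G t := by
  intro l hl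
  by_contra hlen
  push Not at hlen
  apply h
  have := (hl.take t).embedding
  rwa [List.length_take, Nat.min_eq_left hlen] at this

/-- A relation making `S` a rooted forest of height at most `m` that covers the edges. -/
structure Forest (G : SimpleGraph V) (S : Set V) (m : ℕ) (r : V → V → Prop) : Prop where
  mem : ∀ u w, r u w → u ∈ S ∧ w ∈ S
  rfl : ∀ u ∈ S, r u u
  trans : ∀ u v w, r u v → r v w → r u w
  anti : ∀ u v, r u v → r v u → u = v
  chain : ∀ u v w, r u w → r v w → r u v ∨ r v u
  card : ∀ w, {u | r u w}.ncard ≤ m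
  adj : ∀ u ∈ S, ∀ v ∈ S, G.Adj u v → r u v ∨ r v u

lemma TD.forest [Finite V] {S : Set V} {m : ℕ} (h : TD G S m) : ∃ r, Forest G S m r := by
  induction h with
  | empty m =>
    exact ⟨fun _ _ => False, ⟨by tauto, by simp, by tauto, by tauto, by tauto, by simp, by simp⟩⟩
  | @del S v m hv _ ih =>
    obtain ⟨r, hr⟩ := ih
    refine ⟨fun u w => (u = v ∧ w ∈ S) ∨ r u w, ⟨?_, ?_, ?_, ?_, ?_, ?_, ?_⟩⟩
    · rintro u w (⟨rfl, h⟩ | h)
      · exact ⟨hv, h⟩
      · exact ⟨(hr.mem u w h).1.1, (hr.mem u w h).2.1⟩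
    · intro u hu
      by_cases h : u = v
      · exact Or.inl ⟨h, hu⟩
      · exact Or.inr (hr.rfl u ⟨hu, h⟩)
    · rintro a b c (⟨rfl, h⟩ | h) (⟨rfl, h'⟩ | h')
      · exact Or.inl ⟨rfl, h'⟩
      · exact Or.inl ⟨rfl, (hr.mem _ _ h').2.1⟩
      · exact absurd rfl (hr.mem _ _ h).2.2
      · exact Or.inr (hr.trans _ _ _ h h')
    · rintro a b (⟨rfl, h⟩ | h) (⟨h1, h'⟩ | h')
      · exact h1.symm
      · exact absurd rfl (hr.mem _ _ h').2.2
      · subst h1
        exact absurd rfl (hr.mem _ _ h).2.2
      · exact hr.anti _ _ h h'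
    · rintro a b c (⟨rfl, h⟩ | h) (⟨h1, h'⟩ | h')
      · subst h1
        exact Or.inl (Or.inl ⟨rfl, hv⟩)
      · exact Or.inl (Or.inl ⟨rfl, (hr.mem _ _ h').1.1⟩)
      · exact Or.inr (Or.inl ⟨h1, (hr.mem _ _ h).1.1⟩)
      · rcases hr.chain _ _ _ h h' with h | h
        · exact Or.inl (Or.inr h)
        · exact Or.inr (Or.inr h)
    · intro w
      have : {u | (u = v ∧ w ∈ S) ∨ r u w} ⊆ insert v {u | r u w} := by
        rintro u (⟨rfl, _⟩ | h)
        · simp
        · exact Or.inr h
      calc _ ≤ (insert v {u | r u w}).ncard := Set.ncard_le_ncard this (Set.toFinite _)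
        _ ≤ {u | r u w}.ncard + 1 := Set.ncard_insert_le _ _
        _ ≤ m + 1 := by have := hr.card w; omega
    · intro a ha b hb hab
      by_cases h1 : a = v
      · exact Or.inl (Or.inl ⟨h1, hb⟩)
      · by_cases h2 : b = v
        · exact Or.inr (Or.inl ⟨h2, ha⟩)
        · rcases hr.adj a ⟨ha, h1⟩ b ⟨hb, h2⟩ hab with h | h
          · exact Or.inl (Or.inr h)
          · exact Or.inr (Or.inr h)
  | @union S T m hN _ _ ih1 ih2 =>
    obtain ⟨r, hr⟩ := ih1
    obtain ⟨s, hs⟩ := ih2
    have hd : ∀ x, x ∈ S → x ∈ T → False := fun x h1 h2 => (hN x h1 x h2).1 rfl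
    refine ⟨fun u w => r u w ∨ s u w, ⟨?_, ?_, ?_, ?_, ?_, ?_, ?_⟩⟩
    · rintro u w (h | h)
      · exact ⟨Or.inl (hr.mem _ _ h).1, Or.inl (hr.mem _ _ h).2⟩
      · exact ⟨Or.inr (hs.mem _ _ h).1, Or.inr (hs.mem _ _ h).2⟩
    · rintro u (h | h)
      · exact Or.inl (hr.rfl u h)
      · exact Or.inr (hs.rfl u h)
    · rintro a b c (h | h) (h' | h')
      · exact Or.inl (hr.trans _ _ _ h h')
      · exact (hd b (hr.mem _ _ h).2 (hs.mem _ _ h').1).elim
      · exact (hd b (hr.mem _ _ h').1 (hs.mem _ _ h).2).elim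
      · exact Or.inr (hs.trans _ _ _ h h')
    · rintro a b (h | h) (h' | h')
      · exact hr.anti _ _ h h'
      · exact (hd b (hr.mem _ _ h).2 (hs.mem _ _ h').1).elim
      · exact (hd b (hr.mem _ _ h').1 (hs.mem _ _ h).2).elim
      · exact hs.anti _ _ h h'
    · rintro a b c (h | h) (h' | h')
      · rcases hr.chain _ _ _ h h' with h | h
        · exact Or.inl (Or.inl h)
        · exact Or.inr (Or.inl h)
      · exact (hd c (hr.mem _ _ h).2 (hs.mem _ _ h').2).elim
      · exact (hd c (hr.mem _ _ h').2 (hs.mem _ _ h).2).elim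
      · rcases hs.chain _ _ _ h h' with h | h
        · exact Or.inl (Or.inr h)
        · exact Or.inr (Or.inr h)
    · intro w
      by_cases hw : w ∈ S
      · have : {u | r u w ∨ s u w} = {u | r u w} := by
          ext u
          simp only [Set.mem_ofPred_eq, or_iff_left_iff_imp]
          intro h
          exact (hd w hw (hs.mem _ _ h).2).elim
        rw [this]
        exact hr.card w
      · have : {u | r u w ∨ s u w} = {u | s u w} := by
          ext u
          simp only [Set.mem_ofPred_eq, or_iff_right_iff_imp]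
          intro h
          exact absurd (hr.mem _ _ h).2 hw
        rw [this]
        exact hs.card w
    · rintro a (ha | ha) b (hb | hb) hab
      · rcases hr.adj a ha b hb hab with h | h
        · exact Or.inl (Or.inl h)
        · exact Or.inr (Or.inl h)
      · exact absurd hab (hN a ha b hb).2
      · exact absurd hab.symm (hN b hb a ha).2
      · rcases hs.adj a ha b hb hab with h | h
        · exact Or.inl (Or.inr h)
        · exact Or.inr (Or.inr h)

lemma TD.treedepthLE [Finite V] {m : ℕ} (h : TD G Set.univ m) : TreedepthLE m G := by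
  obtain ⟨r, hr⟩ := h.forest
  refine ⟨{ le := r, lt := fun a b => r a b ∧ ¬ r b a, le_refl := fun a => hr.rfl a trivial,
            le_trans := hr.trans, lt_iff_le_not_ge := fun _ _ => Iff.rfl,
            le_antisymm := hr.anti }, ?_, ?_, ?_⟩
  · intro w a ha b hb _
    exact hr.chain a b w ha hb
  · intro w
    exact hr.card w
  · intro u v huv
    exact hr.adj u trivial v trivial huv

/-- The upper bound for treedepth. -/
theorem treedepthLE_of [Finite V] {k t : ℕ} (ht : 2 ≤ t) (hw : TreewidthLE k G)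
    (hP : PathFree t G) : TreedepthLE (3 * (k + 2) ^ ((t - 1) / 2)) G :=
  (td_upper ht hw.commonBag hP.noIP).treedepthLE

theorem treedepth_le_of [Finite V] {k t : ℕ} (ht : 2 ≤ t) (hw : TreewidthLE k G)
    (hP : PathFree t G) : treedepth G ≤ 3 * (k + 2) ^ ((t - 1) / 2) :=
  Nat.sInf_le (treedepthLE_of ht hw hP)

end Pool.Agent.H51.Td
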