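import Pool.Agent.H51.Td.Link

/-! The lower bound construction. -/

namespace Pool.Agent.H51.Td

open SimpleGraph

variable {V : Type*} {G : SimpleGraph V}

/-- A certificate that `S` has treedepth at least `j`. -/
inductive Low (G : SimpleGraph V) : Set V → ℕ → Prop
  | zero (S : Set V) : Low G S 0
  | succ {S C : Set V} {j : ℕ} : C ⊆ S → Conn G C → (∀ v ∈ C, Low G (C \ {v}) j) →
      Low G S (j + 1)

lemma Low.mono {S S' : Set V} {j : ℕ} (h : Low G S j) (hS : S ⊆ S') : Low G S' j := by
  cases h with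
  | zero => exact .zero _
  | succ h1 h2 h3 => exact .succ (h1.trans hS) h2 h3

lemma Low.bound {V : Type} {G : SimpleGraph V} [Finite V] [PartialOrder V]
    (hc : ∀ w : V, IsChain (· ≤ ·) (Set.Iic w))
    (hadj : ∀ u v : V, G.Adj u v → u ≤ v ∨ v ≤ u) {S : Set V} {j : ℕ} (h : Low G S j) :
    j = 0 ∨ ∃ w ∈ S, j ≤ (Set.Iic w ∩ S).ncard := by
  induction h with
  | zero => exact Or.inl rfl
  | @succ S C j hCS hC _ ih =>
    right
    obtain ⟨x, hx⟩ := (Set.toFinite C).exists_minimal hC.1
    have hroot : ∀ y ∈ C, x ≤ y := by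
      by_contra hcon
      push Not at hcon
      obtain ⟨y, hy, hxy⟩ := hcon
      obtain ⟨a, ha, b, hb, hbA, hab⟩ := hC.2 {y | y ∈ C ∧ x ≤ y} (fun z hz => hz.1)
        ⟨x, hx.1, le_refl x⟩ (by
          intro e
          have : y ∈ {y | y ∈ C ∧ x ≤ y} := by rw [e]; exact hy
          exact hxy this.2)
      have hxb : ¬ x ≤ b := fun h => hbA ⟨hb, h⟩
      rcases hadj a b hab with h | h
      · exact hxb (ha.2.trans h)
      · by_cases hbx : b = x
        · exact hxb (hbx ▸ le_refl _)
        · rcases hc a (show b ∈ Set.Iic a from h) (show x ∈ Set.Iic a from ha.2) hbx with h1 | h1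
          · exact hxb (hx.2 hb h1)
          · exact hxb h1
    rcases ih x hx.1 with h0 | ⟨w, hw, hle⟩
    · refine ⟨x, hCS hx.1, ?_⟩
      rw [h0]
      have : ({x} : Set V) ⊆ Set.Iic x ∩ S := by
        rintro y rfl
        exact ⟨le_refl _, hCS hx.1⟩
      have := Set.ncard_le_ncard this (Set.toFinite _)
      rw [Set.ncard_singleton] at this
      omega
    · refine ⟨w, hCS hw.1, ?_⟩
      have hsub : insert x (Set.Iic w ∩ (C \ {x})) ⊆ Set.Iic w ∩ S := by
        rintro y (rfl | hy)
        · exact ⟨hroot w hw.1, hCS hx.1⟩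
        · exact ⟨hy.1, hCS hy.2.1⟩
      have h1 := Set.ncard_le_ncard hsub (Set.toFinite _)
      rw [Set.ncard_insert_of_notMem (fun h => h.2.2 rfl) (Set.toFinite _)] at h1
      omega

lemma Low.le_of_treedepthLE {V : Type} {G : SimpleGraph V} [Finite V] {j m : ℕ}
    (h : Low G Set.univ j) (hm : TreedepthLE m G) : j ≤ m := by
  obtain ⟨inst, h1, h2, h3⟩ := hm
  rcases h.bound h1 h3 with h0 | ⟨w, _, hw⟩
  · omega
  · rw [Set.inter_univ] at hw
    exact hw.trans (h2 w)

lemma Conn.map {W : Type*} {G' : SimpleGraph W} (f : V → W)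
    (hf : ∀ a b, G.Adj a b → G'.Adj (f a) (f b)) {C : Set V} (h : Conn G C) :
    Conn G' (f '' C) := by
  refine ⟨h.1.image f, fun A hA hne hA' => ?_⟩
  have h1 : C ∩ f ⁻¹' A ≠ C := by
    intro e
    apply hA'
    apply Set.Subset.antisymm hA
    rintro _ ⟨x, hx, rfl⟩
    rw [← e] at hx
    exact hx.2
  obtain ⟨a, ha, b, hb, hb2, hab⟩ := h.2 (C ∩ f ⁻¹' A) Set.inter_subset_left (by
    obtain ⟨y, hy⟩ := hne
    obtain ⟨x, hx, rfl⟩ := hA hy
    exact ⟨x, hx, hy⟩) h1
  exact ⟨f a, ha.2, f b, ⟨b, hb, rfl⟩, fun h => hb2 ⟨hb, h⟩, hf _ _ hab⟩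

lemma Low.map {W : Type*} {G' : SimpleGraph W} (f : V → W) (hinj : Function.Injective f)
    (hf : ∀ a b, G.Adj a b → G'.Adj (f a) (f b)) {S : Set V} {j : ℕ} (h : Low G S j) :
    Low G' (f '' S) j := by
  induction h with
  | zero => exact .zero _
  | @succ S C j hCS hC _ ih =>
    refine .succ (Set.image_mono hCS) (hC.map f hf) ?_
    rintro _ ⟨v, hv, rfl⟩
    have := ih v hv
    rwa [Set.image_sdiff hinj, Set.image_singleton] at this

/-- Two copies of `H` are attached to every vertex of `D`. -/
def blow {α β : Type} (D : SimpleGraph α) (H : SimpleGraph β) :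
    SimpleGraph (α ⊕ (α × Bool × β)) where
  Adj x y := match x, y with
    | .inl a, .inl a' => D.Adj a a'
    | .inl a, .inr q => q.1 = a
    | .inr q, .inl a => q.1 = a
    | .inr q, .inr q' => q.1 = q'.1 ∧ q.2.1 = q'.2.1 ∧ H.Adj q.2.2 q'.2.2
  symm := ⟨by
    rintro (a | q) (a' | q') h
    · exact SimpleGraph.Adj.symm (G := D) h
    · exact h
    · exact h
    · exact ⟨h.1.symm, h.2.1.symm, h.2.2.symm⟩⟩
  loopless := ⟨by
    rintro (a | q) h
    · exact D.loopless.irrefl a h
    · exact H.loopless.irrefl _ h.2.2⟩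

section Blow

variable {α β : Type} {D : SimpleGraph α} {H : SimpleGraph β}

/-- The part of the blow-up hanging at the vertices of `S`. -/
def part (β : Type) (S : Set α) : Set (α ⊕ (α × Bool × β)) :=
  {x | match x with
    | .inl a => a ∈ S
    | .inr q => q.1 ∈ S}

lemma part_conn {C : Set α} (hC : Conn D C) : Conn (blow D H) (part β C) := by
  obtain ⟨⟨a₀, ha₀⟩, hcut⟩ := hC
  refine ⟨⟨.inl a₀, ha₀⟩, fun A hA hne hA' => ?_⟩
  by_cases hmix : ∃ a ∈ C, ∃ q : α × Bool × β, q.1 = a ∧
      ((Sum.inl a ∈ A ∧ Sum.inr q ∉ A) ∨ (Sum.inl a ∉ A ∧ Sum.inr q ∈ A))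
  · obtain ⟨a, ha, q, hq, h | h⟩ := hmix
    · exact ⟨.inl a, h.1, .inr q, by change q.1 ∈ C; rwa [hq], h.2, hq⟩
    · exact ⟨.inr q, h.2, .inl a, ha, h.1, hq⟩
  · push Not at hmix
    have hiff : ∀ q : α × Bool × β, q.1 ∈ C → (Sum.inr q ∈ A ↔ Sum.inl q.1 ∈ A) := by
      intro q hq
      have := hmix q.1 hq q rfl
      constructor
      · intro h
        by_contra h'
        exact this.2 h' h
      · intro h
        exact this.1 h
    obtain ⟨a, ha, b, hb, hb2, hab⟩ := hcut {a | Sum.inl a ∈ A} (fun a ha => hA ha) (by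
      obtain ⟨x, hx⟩ := hne
      rcases x with a | q
      · exact ⟨a, hx⟩
      · exact ⟨q.1, (hiff q (hA hx)).1 hx⟩) (by
      intro e
      apply hA'
      apply Set.Subset.antisymm hA
      rintro (a | q) h
      · have : a ∈ {a | Sum.inl a ∈ A} := by rw [e]; exact h
        exact this
      · have : q.1 ∈ {a | Sum.inl a ∈ A} := by rw [e]; exact h
        exact (hiff q h).2 this)
    exact ⟨.inl a, ha, .inl b, hb, hb2, hab⟩

lemma part_low {j : ℕ} (hH : Low H Set.univ j) {S : Set α} {i : ℕ} (h : Low D S i) (hi : 1 ≤ i) :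
    Low (blow D H) (part β S) (i + j) := by
  induction h with
  | zero => omega
  | @succ S C i hCS hC _ ih =>
    have e : i + 1 + j = (i + j) + 1 := by ring
    rw [e]
    refine .succ (C := part β C) ?_ (part_conn hC) ?_
    · rintro (a | q) h
      · exact hCS h
      · exact hCS h
    · intro w hw
      rcases Nat.eq_zero_or_pos i with rfl | hpos
      · rw [zero_add]
        -- some copy of `H` survives
        have hcopy : ∀ (a : α) (c : Bool), a ∈ C → w ∉ (fun b : β => Sum.inr (a, c, b)) '' Set.univ →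
            Low (blow D H) (part β C \ {w}) j := by
          intro a c ha hwn
          have h1 : Low (blow D H)
              ((fun b : β => (Sum.inr (a, c, b) : α ⊕ (α × Bool × β))) '' Set.univ) j := by
            refine hH.map (G' := blow D H) _ (by intro b b' hbb; simpa using hbb) ?_
            intro b b' hbb
            exact ⟨rfl, rfl, hbb⟩
          refine h1.mono ?_
          rintro _ ⟨b, _, rfl⟩
          refine ⟨ha, ?_⟩
          rintro rfl
          exact hwn ⟨b, trivial, rfl⟩
        rcases w with a | ⟨a, c, b⟩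
        · exact hcopy a true hw (by simp)
        · exact hcopy a (!c) hw (by simp)
      · have hgen : ∀ a ∈ C, w ∉ part β (C \ {a}) → Low (blow D H) (part β C \ {w}) (i + j) := by
          intro a ha hwn
          refine (ih a ha hpos).mono ?_
          rintro x hx
          refine ⟨?_, ?_⟩
          · rcases x with x | q
            · exact hx.1
            · exact hx.1
          · rintro rfl
            exact hwn hx
        rcases w with a | q
        · exact hgen a hw (fun h => h.2 rfl)
        · exact hgen q.1 hw (fun h => h.2 rfl)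

end Blow

lemma IP.reverse {l : List V} (h : IP G l) : IP G l.reverse := by
  cases l with
  | nil => simp
  | cons a l =>
    have := IP.join h (l₂ := []) (by simp) (by simp)
    simpa using this

lemma IP.drop {l₁ l₂ : List V} (h : IP G (l₁ ++ l₂)) : IP G l₂ := by
  induction l₁ with
  | nil => simpa using h
  | cons a l ih => exact ih h.tail

lemma IP.left {l₁ l₂ : List V} (h : IP G (l₁ ++ l₂)) : IP G l₁ := by
  have := h.take l₁.length
  simpa using this

lemma IP.of_map {W : Type*} {G' : SimpleGraph W} {f : W → V}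
    (hf : ∀ a b, G.Adj (f a) (f b) ↔ G'.Adj a b) {l : List W} (h : IP G (l.map f)) : IP G' l := by
  induction l with
  | nil => trivial
  | cons a l ih =>
    cases l with
    | nil => trivial
    | cons b l =>
      refine ⟨(hf a b).1 h.1, fun c hc => ?_, ih h.2.2⟩
      have := h.2.1 (f c) (List.mem_map_of_mem hc)
      exact ⟨fun e => this.1 (by rw [e]), fun e => this.2 ((hf a c).2 e)⟩

section Blow

variable {α β : Type} {D : SimpleGraph α} {H : SimpleGraph β}

lemma blow_path_inl {a : α} {l : List (α ⊕ (α × Bool × β))} (h : IP (blow D H) (.inl a :: l)) :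
    ∃ (m : List α) (e : List (α ⊕ (α × Bool × β))), l = m.map Sum.inl ++ e ∧ e.length ≤ 1 := by
  induction l generalizing a with
  | nil => exact ⟨[], [], rfl, by simp⟩
  | cons x l ih =>
    rcases x with a' | q
    · obtain ⟨m, e, h1, h2⟩ := ih h.2.2
      exact ⟨a' :: m, e, by simp [h1], h2⟩
    · have h1 : q.1 = a := h.1
      cases l with
      | nil => exact ⟨[], [.inr q], rfl, by simp⟩
      | cons y l =>
        exfalso
        have h2 : (blow D H).Adj (.inr q) y := h.2.2.1
        have h3 := h.2.1 y (by simp)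
        rcases y with a' | q'
        · have h4 : q.1 = a' := h2
          exact h3.1 (by rw [← h4, h1])
        · have h4 : q.1 = q'.1 ∧ q.2.1 = q'.2.1 ∧ H.Adj q.2.2 q'.2.2 := h2
          exact h3.2 (by change q'.1 = a; rw [← h4.1, h1])

lemma blow_path_inr {q : α × Bool × β} {l : List (α ⊕ (α × Bool × β))}
    (h : IP (blow D H) (.inr q :: l)) (hl : ∀ x ∈ l, ∃ q', x = Sum.inr q') :
    ∃ m : List β, l = m.map (fun b => Sum.inr (q.1, q.2.1, b)) := by
  induction l generalizing q with
  | nil => exact ⟨[], rfl⟩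
  | cons x l ih =>
    obtain ⟨q', rfl⟩ := hl x (by simp)
    have h1 : q.1 = q'.1 ∧ q.2.1 = q'.2.1 ∧ H.Adj q.2.2 q'.2.2 := h.1
    obtain ⟨m, hm⟩ := ih h.2.2 (fun x hx => hl x (by simp [hx]))
    refine ⟨q'.2.2 :: m, ?_⟩
    rw [List.map_cons, hm, h1.1, h1.2.1]

lemma blow_noIP {s : ℕ} (hD : NoIP D s) (hH : NoIP H (s + 2)) : NoIP (blow D H) (s + 2) := by
  intro l hl
  by_cases hinl : ∃ a, Sum.inl a ∈ l
  · obtain ⟨a, ha⟩ := hinl
    obtain ⟨p, q, rfl⟩ := List.append_of_mem ha
    have h1 : IP (blow D H) (.inl a :: q) := hl.drop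
    have h2 : IP (blow D H) (.inl a :: p.reverse) := by
      have : p ++ Sum.inl a :: q = (p ++ [Sum.inl a]) ++ q := by simp
      rw [this] at hl
      have := hl.left.reverse
      simpa using this
    obtain ⟨m, e, hm, he⟩ := blow_path_inl h1
    obtain ⟨m', e', hm', he'⟩ := blow_path_inl h2
    have hp : p = e'.reverse ++ m'.reverse.map Sum.inl := by
      have := congrArg List.reverse hm'
      simpa [List.map_reverse] using this
    have hl' : p ++ Sum.inl a :: q =
        e'.reverse ++ (((m'.reverse ++ a :: m).map Sum.inl) ++ e) := by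
      rw [hp, hm]; simp
    rw [hl'] at hl ⊢
    have h3 : IP (blow D H) ((m'.reverse ++ a :: m).map Sum.inl) := hl.drop.left
    have h4 : IP D (m'.reverse ++ a :: m) :=
      IP.of_map (G := blow D H) (f := Sum.inl) (fun a b => Iff.rfl) h3
    have h5 := hD _ h4
    simp only [List.length_append, List.length_map, List.length_reverse] at h5 ⊢
    omega
  · push Not at hinl
    have hinr : ∀ x ∈ l, ∃ q', x = Sum.inr q' := by
      rintro (a | q) hx
      · exact absurd hx (hinl a)
      · exact ⟨q, rfl⟩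
    cases l with
    | nil => simp
    | cons x l =>
      obtain ⟨q, rfl⟩ := hinr x (by simp)
      obtain ⟨m, hm⟩ := blow_path_inr hl (fun x hx => hinr x (by simp [hx]))
      have h1 : (Sum.inr q :: l : List (α ⊕ (α × Bool × β))) =
          (q.2.2 :: m).map (fun b => Sum.inr (q.1, q.2.1, b)) := by
        rw [List.map_cons, hm]
      rw [h1] at hl ⊢
      have h2 : IP H (q.2.2 :: m) := hl.of_map (fun a b => by
        constructor
        · intro h; exact h.2.2
        · intro h; exact ⟨rfl, rfl, h⟩)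
      rw [List.length_map]
      exact hH _ h2

/-- A rooted tree decomposition with bags of size at most `k + 1`. -/
def RT {V : Type} (k : ℕ) (G : SimpleGraph V) : Prop :=
  ∃ (ι : Type) (_ : Finite ι) (r : ι) (p : ι → ι) (rk : ι → ℕ) (B : ι → Finset V) (top : V → ι),
    (∀ i, i ≠ r → rk (p i) < rk i) ∧
    (∀ v, v ∈ B (top v)) ∧
    (∀ v i, v ∈ B i → i ≠ top v → i ≠ r ∧ v ∈ B (p i)) ∧
    (∀ u v, G.Adj u v → ∃ i, u ∈ B i ∧ v ∈ B i) ∧
    ∀ i, (B i).card ≤ k + 1

lemma blow_RT {k : ℕ} (hD : RT (k + 1) D) (hH : RT k H) : RT (k + 1) (blow D H) := by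
  classical
  obtain ⟨ι, _, r, p, rk, B, top, h1, h2, h3, h4, h5⟩ := hD
  obtain ⟨κ, _, r', p', rk', B', top', h1', h2', h3', h4', h5'⟩ := hH
  have _ : Finite α := Finite.of_injective (fun v : α => (⟨top v, ⟨v, h2 v⟩⟩ : Σ i, B i)) (by
    intro v w hvw
    simp only [Sigma.mk.injEq] at hvw
    have h := hvw.1
    have h' := hvw.2
    have : ∀ (i j : ι) (x : B i) (y : B j), i = j → HEq x y → x.1 = y.1 := by
      intro i j x y hij hxy
      subst hij
      rw [eq_of_heq hxy]
    exact this _ _ _ _ h h')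
  refine ⟨ι ⊕ (α × Bool × κ), inferInstance, .inl r,
    fun x => match x with
      | .inl i => .inl (p i)
      | .inr (a, c, j) => if j = r' then .inl (top a) else .inr (a, c, p' j),
    fun x => match x with
      | .inl i => rk i
      | .inr (a, _, j) => rk (top a) + 1 + rk' j,
    fun x => match x with
      | .inl i => (B i).image Sum.inl
      | .inr (a, c, j) => insert (.inl a) ((B' j).image (fun b => .inr (a, c, b))),
    fun x => match x with
      | .inl a => .inl (top a)
      | .inr (a, c, b) => .inr (a, c, top' b), ?_, ?_, ?_, ?_, ?_⟩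
  · rintro (i | ⟨a, c, j⟩) hne
    · exact h1 i (fun h => hne (by rw [h]))
    · by_cases hj : j = r'
      · simp only [hj, if_true]
        omega
      · simp only [hj, if_false]
        have := h1' j hj
        omega
  · rintro (a | ⟨a, c, b⟩)
    · simpa using h2 a
    · simpa using h2' b
  · rintro (a | ⟨a, c, b⟩) (i | ⟨a', c', j⟩) hv hne
    · simp only [Finset.mem_image, Sum.inl.injEq, exists_eq_right] at hv
      have := h3 a i hv (fun h => hne (by rw [h]))
      exact ⟨fun h => this.1 (by simpa using h), by simpa using this.2⟩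
    · simp only [Finset.mem_insert, Sum.inl.injEq, Finset.mem_image, reduceCtorEq, and_false,
        exists_false, or_false] at hv
      subst hv
      refine ⟨by simp, ?_⟩
      by_cases hj : j = r'
      · simpa [hj] using h2 a
      · simp [hj]
    · simp at hv
    · simp only [Finset.mem_insert, reduceCtorEq, Finset.mem_image, Sum.inr.injEq, Prod.mk.injEq,
        false_or] at hv
      obtain ⟨b', hb', rfl, rfl, rfl⟩ := hv
      have := h3' b' j hb' (fun h => hne (by rw [h]))
      refine ⟨by simp, ?_⟩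
      simp only [this.1, if_false]
      simpa using this.2
  · rintro (a | ⟨a, c, b⟩) (a' | ⟨a', c', b'⟩) hadj
    · obtain ⟨i, hi1, hi2⟩ := h4 a a' hadj
      exact ⟨.inl i, by simpa using hi1, by simpa using hi2⟩
    · have e : a' = a := hadj
      subst e
      exact ⟨.inr (a', c', top' b'), by simp, by simpa using h2' b'⟩
    · have e : a = a' := hadj
      subst e
      exact ⟨.inr (a, c, top' b), by simpa using h2' b, by simp⟩
    · obtain ⟨e1, e2, e3⟩ : a = a' ∧ c = c' ∧ H.Adj b b' := hadj
      subst e1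
      subst e2
      obtain ⟨j, hj1, hj2⟩ := h4' b b' e3
      exact ⟨.inr (a, c, j), by simpa using hj1, by simpa using hj2⟩
  · rintro (i | ⟨a, c, j⟩)
    · exact Finset.card_image_le.trans (h5 i)
    · exact (Finset.card_insert_le _ _).trans
        (Nat.add_le_add_right (Finset.card_image_le.trans (h5' j)) 1)

end Blow

end Pool.Agent.H51.Td
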