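import Pool.Agent.H51.Td.Basic

/-! The upper bound on elimination height, from a common-bag property and the absence of long
induced paths. -/

namespace Pool.Agent.H51.Td

open SimpleGraph

variable {V : Type*} {G : SimpleGraph V}

/-- Families of connected sets that pairwise touch or share `k + 2` neighbours have a hitting
set of size at most `k + 1`. -/
def CommonBag (G : SimpleGraph V) (k : ℕ) : Prop :=
  ∀ F : Set (Set V), (∀ A ∈ F, Conn G A) →
    (∀ A ∈ F, ∀ A' ∈ F, NT G A A' → ∃ Y : Finset V, k + 2 ≤ Y.card ∧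
      ∀ y ∈ Y, (∃ a ∈ A, G.Adj y a) ∧ (∃ a ∈ A', G.Adj y a)) →
    ∃ R : Finset V, R.card ≤ k + 1 ∧ ∀ A ∈ F, ∃ v ∈ A, v ∈ R

/-- All induced paths have fewer than `t` vertices. -/
def NoIP (G : SimpleGraph V) (t : ℕ) : Prop := ∀ l : List V, IP G l → l.length < t

/-- The elimination property with parameters `ρ` (depth of the bad roots) and `e` (cost). -/
def Star (G : SimpleGraph V) (ρ e : ℕ) : Prop :=
  ∀ L, Conn G L → ∀ M, (∀ L' ⊆ L, Conn G L' → (∃ y ∈ Nb G L L', ¬ Dep G y L' (ρ + 1)) →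
    TD G L' M) → TD G L (e + M)

/-- Connected subsets of `L` all of whose neighbours in `L` are deep. -/
def Heavy (G : SimpleGraph V) (L : Set V) (p : ℕ) : Set (Set V) :=
  {K | K ⊆ L ∧ Conn G K ∧ ∀ b ∈ Nb G L K, Dep G b K p}

lemma remove_bag [Finite V] {k : ℕ} (hCB : CommonBag G k) {L : Set V} {p M : ℕ}
    (hFF : ∀ A ∈ Heavy G L p, ∀ A' ∈ Heavy G L p, NT G A A' →
      ∃ Y : Finset V, k + 2 ≤ Y.card ∧
        ∀ y ∈ Y, (∃ a ∈ A, G.Adj y a) ∧ (∃ a ∈ A', G.Adj y a))
    (hM : ∀ C ⊆ L, Conn G C → (∃ b ∈ Nb G L C, ¬ Dep G b C p) → TD G C M) :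
    TD G L (M + (k + 1)) := by
  obtain ⟨R, hR, hmeet⟩ := hCB (Heavy G L p) (fun A hA => hA.2.1) hFF
  refine TD.le (TD.add R (TD.comps ?_)) (Nat.add_le_add_left hR M)
  intro C hC hcon _
  have hCL : C ⊆ L := fun x hx => (hC hx).1
  apply hM C hCL hcon
  by_contra h
  push Not at h
  obtain ⟨v, hv, hvR⟩ := hmeet C ⟨hCL, hcon, h⟩
  exact (hC hv).2 hvR

lemma star_odd [Finite V] {k ρ : ℕ} (hCB : CommonBag G k) (hP : NoIP G (2 * (ρ + 1) + 1)) :
    Star G ρ (k + 1) := by
  intro L hL M hyp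
  rw [add_comm]
  refine remove_bag (p := ρ + 1) hCB ?_ hyp
  intro A hA A' hA' hN
  exfalso
  rcases claimC hL hA.2.1 hA'.2.1 hA.1 hA'.1 hN hA.2.2 hA'.2.2 with ⟨l, h1, h2⟩ | ⟨⟨l, h1, h2⟩, _⟩
  · have := hP l h2
    omega
  · have := hP l h2
    omega

/-- A root of depth at most `p` sees every heavy set. -/
lemma sees_heavy [Finite V] {L K : Set V} {y : V} {p : ℕ} (hL : Conn G L) (hyL : y ∉ L)
    (hy : ∃ c ∈ L, G.Adj y c) (hD : ¬ Dep G y L (p + 1)) (hK : K ∈ Heavy G L p) :
    ∃ c ∈ K, G.Adj y c := by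
  by_contra h
  push Not at h
  obtain ⟨b, hb1, hb2, hb3, hb4⟩ := claimB hL hyL hy hD hK.2.1 hK.1 h
  exact hb4 (hK.2.2 b ⟨hb1, hb2, hb3⟩)

lemma star_step [Finite V] {k ρ e : ℕ} (hCB : CommonBag G k) (hS : Star G (ρ + 1) e) :
    Star G ρ ((k + 2) * e + (k + 1)) := by
  classical
  intro L₀ hL₀ M hyp
  have key : ∀ n, ∀ L' ⊆ L₀, Conn G L' → ∀ Y : Finset V, Y.card + n = k + 2 →
      (∀ y ∈ Y, y ∈ Nb G L₀ L' ∧ ¬ Dep G y L' (ρ + 1 + 1)) → TD G L' (n * e + (k + 1) + M) := by
    intro n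
    induction n with
    | zero =>
      intro L' hL' hcon Y hY hYD
      rw [zero_mul, zero_add, add_comm]
      refine remove_bag (p := ρ + 1) hCB ?_ ?_
      · intro A hA A' hA' _
        refine ⟨Y, by omega, fun y hy => ⟨?_, ?_⟩⟩
        · exact sees_heavy hcon (hYD y hy).1.2.1 (hYD y hy).1.2.2 (hYD y hy).2 hA
        · exact sees_heavy hcon (hYD y hy).1.2.1 (hYD y hy).1.2.2 (hYD y hy).2 hA'
      · intro C hC hCcon hb
        obtain ⟨b, hb1, hb2⟩ := hb
        exact hyp C (hC.trans hL') hCcon ⟨b, ⟨hL' hb1.1, hb1.2⟩, hb2⟩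
    | succ n ih =>
      intro L' hL' hcon Y hY hYD
      have h1 := hS L' hcon (n * e + (k + 1) + M)
      have h2 : (n + 1) * e + (k + 1) + M = e + (n * e + (k + 1) + M) := by ring
      rw [h2]
      apply h1
      intro L'' hL'' hcon'' ⟨z, hz, hzD⟩
      by_cases hall : ∀ y ∈ Y, ∃ c ∈ L'', G.Adj y c
      · apply ih L'' (hL''.trans hL') hcon'' (insert z Y)
        · rw [Finset.card_insert_of_notMem]
          · omega
          · intro hzY
            exact (hYD z hzY).1.2.1 hz.1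
        · intro y hy
          rw [Finset.mem_insert] at hy
          rcases hy with rfl | hy
          · exact ⟨⟨hL' hz.1, hz.2⟩, hzD⟩
          · refine ⟨⟨(hYD y hy).1.1, fun h => (hYD y hy).1.2.1 (hL'' h), hall y hy⟩, ?_⟩
            intro h
            exact (hYD y hy).2 (h.mono hL'')
      · push Not at hall
        obtain ⟨y, hy, hyn⟩ := hall
        obtain ⟨b, hb1, hb2, hb3, hb4⟩ := claimB hcon (hYD y hy).1.2.1 (hYD y hy).1.2.2
          (hYD y hy).2 hcon'' hL'' hyn
        exact TD.le (hyp L'' (hL''.trans hL') hcon'' ⟨b, ⟨hL' hb1, hb2, hb3⟩, hb4⟩) (by omega)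
  have := key (k + 2) L₀ subset_rfl hL₀ ∅ (by simp) (by simp)
  exact this

/-- A connected set touching a component lies in it. -/
lemma sub_of_touch {S C K : Set V} (hK : Conn G K) (hKS : K ⊆ S)
    (hC : ∀ b ∈ S, b ∉ C → ∀ c ∈ C, ¬ G.Adj b c) (h : ¬ NT G C K) : K ⊆ C := by
  unfold NT at h
  push Not at h
  obtain ⟨x, hx, z, hz, hxz⟩ := h
  have hne : (K ∩ C).Nonempty := by
    by_cases he : x = z
    · exact ⟨x, he ▸ hz, hx⟩
    · have := hxz he
      by_contra hcon
      have hzC : z ∉ C := fun h => hcon ⟨z, hz, h⟩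
      exact hC z (hKS hz) hzC x hx this.symm
  by_contra hsub
  obtain ⟨a, ha, b, hb, hb2, hab⟩ := hK.2 (K ∩ C) Set.inter_subset_left hne
    (fun h => hsub (by rw [← h]; exact Set.inter_subset_right))
  have hbC : b ∉ C := fun h => hb2 ⟨hb, h⟩
  exact hC b (hKS hb) hbC a ha.2 hab.symm

lemma star_even [Finite V] {k ρ : ℕ} (hCB : CommonBag G k) (hP : NoIP G (2 * ρ + 4)) :
    Star G ρ (3 * k + 4) := by
  classical
  intro L₀ hL₀ M hyp
  have key : ∀ n, ∀ L' ⊆ L₀, Conn G L' → ∀ Y : Finset V, k + 2 ≤ Y.card + n →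
      (∀ y ∈ Y, y ∈ Nb G L₀ L' ∧ ¬ Dep G y L' (ρ + 1 + 1)) →
      TD G L' ((if k + 2 ≤ Y.card then k + 1 else (k + 2 - Y.card) + 2 * (k + 1)) + M) := by
    intro n
    induction n with
    | zero =>
      intro L' hL' hcon Y hY hYD
      rw [if_pos (by omega), add_comm]
      refine remove_bag (p := ρ + 1) hCB ?_ ?_
      · intro A hA A' hA' _
        refine ⟨Y, by omega, fun y hy => ⟨?_, ?_⟩⟩
        · exact sees_heavy hcon (hYD y hy).1.2.1 (hYD y hy).1.2.2 (hYD y hy).2 hA
        · exact sees_heavy hcon (hYD y hy).1.2.1 (hYD y hy).1.2.2 (hYD y hy).2 hA'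
      · intro C hC hCcon hb
        obtain ⟨b, hb1, hb2⟩ := hb
        exact hyp C (hC.trans hL') hCcon ⟨b, ⟨hL' hb1.1, hb1.2⟩, hb2⟩
    | succ n ih =>
      intro L' hL' hcon Y hY hYD
      have hypC : ∀ C ⊆ L', Conn G C → (∃ b ∈ Nb G L' C, ¬ Dep G b C (ρ + 1)) → TD G C M := by
        intro C hC hCcon hb
        obtain ⟨b, hb1, hb2⟩ := hb
        exact hyp C (hC.trans hL') hCcon ⟨b, ⟨hL' hb1.1, hb1.2⟩, hb2⟩
      by_cases hcard : k + 2 ≤ Y.card
      · rw [if_pos hcard, add_comm]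
        refine remove_bag (p := ρ + 1) hCB ?_ hypC
        intro A hA A' hA' _
        refine ⟨Y, by omega, fun y hy => ⟨?_, ?_⟩⟩
        · exact sees_heavy hcon (hYD y hy).1.2.1 (hYD y hy).1.2.2 (hYD y hy).2 hA
        · exact sees_heavy hcon (hYD y hy).1.2.1 (hYD y hy).1.2.2 (hYD y hy).2 hA'
      rw [if_neg hcard]
      by_cases hall : ∀ A ∈ Heavy G L' (ρ + 1), ∀ A' ∈ Heavy G L' (ρ + 1), NT G A A' →
          k + 2 ≤ (Nb G L' A ∩ Nb G L' A').ncard
      · refine TD.le (remove_bag (p := ρ + 1) (M := M) hCB ?_ hypC) (by omega)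
        intro A hA A' hA' hN
        refine ⟨(Set.toFinite (Nb G L' A ∩ Nb G L' A')).toFinset, ?_, ?_⟩
        · rw [← Set.ncard_eq_toFinset_card]
          exact hall A hA A' hA' hN
        · intro y hy
          rw [Set.Finite.mem_toFinset] at hy
          exact ⟨hy.1.2.2, hy.2.2.2⟩
      push Not at hall
      let P : ℕ → Prop := fun m => ∃ A ∈ Heavy G L' (ρ + 1), ∃ A' ∈ Heavy G L' (ρ + 1),
        NT G A A' ∧ (Nb G L' A ∩ Nb G L' A').ncard = m
      have hPex : ∃ m, P m := by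
        obtain ⟨A, hA, A', hA', hN, _⟩ := hall
        exact ⟨_, A, hA, A', hA', hN, rfl⟩
      have hmin : ∀ {m : ℕ}, P m → Nat.find hPex ≤ m := fun h => Nat.find_min' hPex h
      obtain ⟨K, hK, K', hK', hN, hm⟩ := Nat.find_spec hPex
      set m := Nat.find hPex with hmdef
      have hmk : m < k + 2 := by
        obtain ⟨A, hA, A', hA', hN, hlt⟩ := hall
        exact lt_of_le_of_lt (hmin ⟨A, hA, A', hA', hN, rfl⟩) hlt
      have hpos : 1 ≤ m := by
        rw [← hm, Nat.one_le_iff_ne_zero, ← Nat.pos_iff_ne_zero, Set.ncard_pos (Set.toFinite _)]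
        rcases claimC hcon hK.2.1 hK'.2.1 hK.1 hK'.1 hN hK.2.2 hK'.2.2 with ⟨l, h1, h2⟩ | ⟨_, h⟩
        · have := hP l h2
          omega
        · exact h
      set X : Finset V := (Set.toFinite (Nb G L' K ∩ Nb G L' K')).toFinset with hX
      have hXmem : ∀ x, x ∈ X ↔ x ∈ Nb G L' K ∧ x ∈ Nb G L' K' := by
        intro x
        rw [hX, Set.Finite.mem_toFinset]
        exact Iff.rfl
      have hXcard : X.card = m := by
        rw [← hm, hX, ← Set.ncard_eq_toFinset_card]
      have hdisj : Disjoint Y X := by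
        rw [Finset.disjoint_left]
        intro y hy hyX
        exact (hYD y hy).1.2.1 ((hXmem y).1 hyX).1.1
      have hKX : K ⊆ L' \ ↑X := by
        intro x hx
        refine ⟨hK.1 hx, fun h => ?_⟩
        exact ((hXmem x).1 h).1.2.1 hx
      have hKX' : K' ⊆ L' \ ↑X := by
        intro x hx
        refine ⟨hK'.1 hx, fun h => ?_⟩
        exact ((hXmem x).1 h).2.2.1 hx
      have hmain : TD G (L' \ ↑X)
          ((if k + 2 ≤ Y.card + m then k + 1 else (k + 2 - (Y.card + m)) + 2 * (k + 1)) + M) := by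
        apply TD.comps
        intro C hC hCcon hCcomp
        have hCL : C ⊆ L' := fun x hx => (hC hx).1
        by_cases hCF : C ∈ Heavy G L' (ρ + 1)
        · have hex : ∃ K₀ ∈ Heavy G L' (ρ + 1), (∀ x ∈ X, x ∈ Nb G L' K₀) ∧ NT G C K₀ := by
            by_cases h1 : NT G C K
            · exact ⟨K, hK, fun x hx => ((hXmem x).1 hx).1, h1⟩
            by_cases h2 : NT G C K'
            · exact ⟨K', hK', fun x hx => ((hXmem x).1 hx).2, h2⟩
            exfalso
            have hKC := sub_of_touch hK.2.1 hKX hCcomp h1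
            have hKC' := sub_of_touch hK'.2.1 hKX' hCcomp h2
            rcases claimC hCcon hK.2.1 hK'.2.1 hKC hKC' hN
              (fun b hb => hK.2.2 b ⟨hCL hb.1, hb.2⟩) (fun b hb => hK'.2.2 b ⟨hCL hb.1, hb.2⟩)
              with ⟨l, h1, h2⟩ | ⟨_, x, hx1, hx2⟩
            · have := hP l h2
              omega
            · exact (hC hx1.1).2 ((hXmem x).2 ⟨⟨hCL hx1.1, hx1.2⟩, ⟨hCL hx2.1, hx2.2⟩⟩)
          obtain ⟨K₀, hK₀, hXK₀, hNT⟩ := hex
          have hle := hmin ⟨C, hCF, K₀, hK₀, hNT, rfl⟩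
          have hsub : Nb G L' C ∩ Nb G L' K₀ ⊆ ↑X := by
            intro b hb
            by_contra hbX
            obtain ⟨hb1, hb2, c, hc, hbc⟩ := hb.1
            exact hCcomp b ⟨hb1, hbX⟩ hb2 c hc hbc
          have heq : Nb G L' C ∩ Nb G L' K₀ = ↑X := by
            apply Set.eq_of_subset_of_ncard_le hsub _ (Set.toFinite _)
            rw [Set.ncard_coe_finset, hXcard]
            exact hle
          have hXC : ∀ x ∈ X, x ∈ Nb G L' C := by
            intro x hx
            have : x ∈ Nb G L' C ∩ Nb G L' K₀ := by rw [heq]; exact hx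
            exact this.1
          have := ih C (hCL.trans hL') hCcon (Y ∪ X) (by
            rw [Finset.card_union_of_disjoint hdisj]; omega) (by
            intro y hy
            rw [Finset.mem_union] at hy
            rcases hy with hy | hy
            · refine ⟨⟨(hYD y hy).1.1, fun h => (hYD y hy).1.2.1 (hCL h), ?_⟩,
                fun h => (hYD y hy).2 (h.mono hCL)⟩
              exact sees_heavy hcon (hYD y hy).1.2.1 (hYD y hy).1.2.2 (hYD y hy).2 hCF
            · refine ⟨⟨hL' (hXC y hy).1, (hXC y hy).2⟩, fun h => ?_⟩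
              obtain ⟨l, hl1, hl2⟩ := h.join (hK₀.2.2 y (hXK₀ y hy)) hNT
              have := hP l hl2
              omega)
          rwa [Finset.card_union_of_disjoint hdisj, hXcard] at this
        · refine TD.le (hypC C hCL hCcon ?_) (by omega)
          by_contra h
          push Not at h
          exact hCF ⟨hCL, hCcon, h⟩
      refine TD.le (TD.add X hmain) ?_
      rw [hXcard]
      split_ifs <;> omega
  have := key (k + 2) L₀ subset_rfl hL₀ ∅ (by simp) (by simp)
  rw [if_neg (by simp)] at this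
  simp only [Finset.card_empty, Nat.sub_zero] at this
  exact TD.le this (by omega)

lemma star_zero [Finite V] {e : ℕ} (hS : Star G 0 e) : TD G Set.univ e := by
  apply TD.comps
  intro C _ hC _
  have := hS C hC 0 (by
    intro L' _ _ ⟨y, hy, hyD⟩
    obtain ⟨c, hc, hyc⟩ := hy.2.2
    exact absurd (Dep.one hc hyc) hyD)
  simpa using this

lemma star_iter [Finite V] {k : ℕ} (hCB : CommonBag G k) (ρ : ℕ) : ∀ e, Star G ρ e →
    TD G Set.univ ((k + 2) ^ ρ * (e + 1) - 1) := by
  induction ρ with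
  | zero =>
    intro e h
    simpa using star_zero h
  | succ ρ ih =>
    intro e h
    have := ih _ (star_step hCB h)
    have e1 : (k + 2) * e + (k + 1) + 1 = (k + 2) * (e + 1) := by ring
    rw [e1] at this
    rwa [pow_succ, mul_assoc]

/-- The upper bound. -/
theorem td_upper [Finite V] {k t : ℕ} (ht : 2 ≤ t) (hCB : CommonBag G k) (hP : NoIP G t) :
    TD G Set.univ (3 * (k + 2) ^ ((t - 1) / 2)) := by
  rcases Nat.even_or_odd' t with ⟨s, hs | hs⟩
  · rcases Nat.lt_or_ge s 2 with h2 | h2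
    · have hs1 : s = 1 := by omega
      subst hs1
      subst hs
      have : TD G Set.univ 1 := by
        apply TD.comps
        intro C _ hC _
        obtain ⟨x, hx⟩ := hC.1
        have hCx : C = {x} := by
          by_contra hne
          obtain ⟨a, _, b, _, _, hab⟩ := hC.2 {x} (by simpa using hx) ⟨x, rfl⟩ (Ne.symm hne)
          have := hP [a, b] ⟨hab, by simp, trivial⟩
          simp at this
        apply TD.del hx
        rw [hCx]
        simpa using TD.empty (G := G) 0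
      exact this.le (by norm_num)
    · obtain ⟨ρ, rfl⟩ := Nat.exists_eq_add_of_le h2
      subst hs
      have h1 := star_iter hCB ρ _ (star_even hCB (by
        have e : 2 * (2 + ρ) = 2 * ρ + 4 := by ring
        rwa [e] at hP))
      have e : (2 * (2 + ρ) - 1) / 2 = ρ + 1 := by omega
      rw [e]
      apply h1.le
      rw [pow_succ]
      have : (k + 2) ^ ρ * (3 * k + 4 + 1) ≤ 3 * ((k + 2) ^ ρ * (k + 2)) := by
        have := Nat.zero_le ((k + 2) ^ ρ)
        nlinarith
      omega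
  · obtain ⟨ρ, rfl⟩ : ∃ ρ, s = ρ + 1 := ⟨s - 1, by omega⟩
    subst hs
    have h1 := star_iter hCB ρ _ (star_odd hCB hP)
    have e : (2 * (ρ + 1) + 1 - 1) / 2 = ρ + 1 := by omega
    rw [e]
    apply h1.le
    have e2 : k + 1 + 1 = k + 2 := by ring
    rw [e2, pow_succ]
    have : (k + 2) ^ ρ * (k + 2) ≤ 3 * ((k + 2) ^ ρ * (k + 2)) := by omega
    omega

end Pool.Agent.H51.Td
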